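import Pool.Agent.helper12.TY.Spec

/-!
Row `ty:YWF`: facts on the wreath product.
-/

set_option autoImplicit false

namespace Pool.Agent.TY

open Pool.Agent.helper58.DC Pool.Agent.DI Pool.Agent.GR Pool.Agent.OB Pool.Agent.TZ

theorem YWF_fin (hSK : SK_stmt) (p : ℕ) [Fact p.Prime] (G : Type) [Group G] [Finite G] :
    Finite (WG p G) := by
  have : NeZero p := ⟨(Fact.out : p.Prime).ne_zero⟩
  have : Fintype (Tp p) := inferInstanceAs (Fintype (Multiplicative (ZMod p)))
  exact (hSK G G Unit (Tp p) (Tp p) (trivE G) (c0 p) ⊥).2.2.1 inferInstance inferInstance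

/-- an element which commutes with the base group is in the base group -/
theorem YWF_l (p : ℕ) [Fact p.Prime] (G : Type) [Group G] (a : G) (ha : a ≠ 1) (q : WG p G)
    (hq : ∀ x : Tp p → G, (WX p G).inc x * q = q * (WX p G).inc x) : q.l = 1 := by
  classical
  by_contra hl
  have h1 := hq (Pi.mulSingle (q.l • (1 : Tp p)) a)
  have h2 : ((WX p G).inc (Pi.mulSingle (q.l • (1 : Tp p)) a) * q).f 1 =
      (q * (WX p G).inc (Pi.mulSingle (q.l • (1 : Tp p)) a)).f 1 := by rw [h1]
  rw [KE.mul_f, KE.mul_f] at h2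
  have h3 : ∀ (x : Tp p → G) (t : Tp p), ((WX p G).inc x).f t = x t := fun _ _ => rfl
  have h4 : ∀ (x : Tp p → G), ((WX p G).inc x).l = 1 := fun _ => rfl
  rw [h3, h3, h4, one_smul, Pi.mulSingle_eq_same, Pi.mulSingle_eq_of_ne, mul_one] at h2
  · exact ha (mul_eq_right.mp h2)
  · intro h
    apply hl
    rw [smul_eq_mul, mul_one] at h
    exact h.symm

theorem YWF_op (p : ℕ) [Fact p.Prime] (G : Type) [Group G] [Nontrivial G]
    (hop : IsOp p (⊤ : Subgroup (Tp p → G)) ⊥) : IsOp p (⊤ : Subgroup (WG p G)) ⊥ := by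
  refine ⟨⟨bot_le, ?_, ?_⟩, ?_⟩
  · exact IsPGroup.of_bot
  · intro x _
    rw [Subgroup.mem_normalizer_iff]
    intro h
    simp
  · rintro Q ⟨-, hQp, hQn⟩
    have hN : ∀ q ∈ Q, ∀ x : WG p G, x * q * x⁻¹ ∈ Q := by
      intro q hq x
      have := hQn (Subgroup.mem_top x)
      rw [Subgroup.mem_normalizer_iff] at this
      exact (this q).1 hq
    have hcom : Q.comap (WX p G).inc ≤ ⊥ := by
      apply hop.2
      refine ⟨le_top, ?_, ?_⟩
      · exact hQp.comap_of_injective _ (WX p G).inc_injective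
      · intro x _
        rw [Subgroup.mem_normalizer_iff]
        intro h
        simp only [Subgroup.mem_comap, map_mul, map_inv]
        constructor
        · intro h1
          exact hN _ h1 _
        · intro h1
          have h2 := hN _ h1 ((WX p G).inc x)⁻¹
          have h3 : ((WX p G).inc x)⁻¹ * ((WX p G).inc x * (WX p G).inc h * ((WX p G).inc x)⁻¹) *
              ((WX p G).inc x)⁻¹⁻¹ = (WX p G).inc h := by group
          rwa [h3] at h2
    have hker : ∀ q ∈ Q, (WX p G).proj q = 1 → q = 1 := by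
      intro q hq h1
      obtain ⟨y, rfl⟩ := ((WX p G).exact q).1 h1
      have : y ∈ Q.comap (WX p G).inc := hq
      have h2 := hcom this
      rw [Subgroup.mem_bot] at h2
      rw [h2, map_one]
    obtain ⟨a, ha⟩ := exists_ne (1 : G)
    intro q hq
    rw [Subgroup.mem_bot]
    apply hker q hq
    have hc : ∀ x : Tp p → G, (WX p G).inc x * q = q * (WX p G).inc x := by
      intro x
      have h1 : (WX p G).inc x * q * ((WX p G).inc x)⁻¹ * q⁻¹ = 1 := by
        apply hker
        · exact Q.mul_mem (hN q hq _) (Q.inv_mem hq)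
        · have h2 : (WX p G).proj ((WX p G).inc x) = 1 := ((WX p G).exact _).2 ⟨x, rfl⟩
          rw [map_mul, map_mul, map_mul, map_inv, map_inv, h2]
          group
      rw [mul_inv_eq_one, mul_inv_eq_iff_eq_mul] at h1
      exact h1
    exact YWF_l p G a ha q hc

theorem YWF_pi (p : ℕ) (G T : Type) [Group G] (hop : IsOp p (⊤ : Subgroup G) ⊥) :
    IsOp p (⊤ : Subgroup (T → G)) ⊥ := by
  refine ⟨⟨bot_le, IsPGroup.of_bot, ?_⟩, ?_⟩
  · intro x _
    rw [Subgroup.mem_normalizer_iff]
    intro h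
    simp
  · rintro Q ⟨-, hQp, hQn⟩
    intro q hq
    rw [Subgroup.mem_bot]
    funext t
    have h1 : Q.map (Pi.evalMonoidHom (fun _ : T => G) t) ≤ ⊥ := by
      apply hop.2
      refine ⟨le_top, hQp.map _, ?_⟩
      intro x _
      have key : ∀ y : G, ∀ h ∈ Q.map (Pi.evalMonoidHom (fun _ : T => G) t),
          y * h * y⁻¹ ∈ Q.map (Pi.evalMonoidHom (fun _ : T => G) t) := by
        rintro y _ ⟨q', hq', rfl⟩
        have h2 := hQn (Subgroup.mem_top (fun _ : T => y))
        rw [Subgroup.mem_normalizer_iff] at h2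
        exact ⟨_, (h2 q').1 hq', rfl⟩
      rw [Subgroup.mem_normalizer_iff]
      intro h
      constructor
      · intro h3
        exact key x h h3
      · intro h3
        have h4 := key x⁻¹ _ h3
        have h5 : x⁻¹ * (x * h * x⁻¹) * x⁻¹⁻¹ = h := by group
        rwa [h5] at h4
    have h2 : q t ∈ Q.map (Pi.evalMonoidHom (fun _ : T => G) t) := ⟨q, hq, rfl⟩
    exact (Subgroup.mem_bot).1 (h1 h2)

theorem YWF (hSK : SK_stmt) (_hPT : PT_stmt) : YWF_stmt := by
  intro p _ G _ _
  have : NeZero p := ⟨(Fact.out : p.Prime).ne_zero⟩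
  have : Fintype (Tp p) := inferInstanceAs (Fintype (Multiplicative (ZMod p)))
  have hcard : Nat.card (Tp p) = p := by
    have : Nat.card (Tp p) = Nat.card (ZMod p) := Nat.card_congr Multiplicative.toAdd
    rw [this, Nat.card_zmod]
  refine ⟨YWF_fin hSK p G, hcard, ?_, ?_⟩
  · rw [Nat.card_fun, hcard]
  · intro hnt hop
    have h1 : IsOp p (⊤ : Subgroup (Tp p → G)) ⊥ := YWF_pi p G (Tp p) hop
    exact ⟨h1, YWF_op p G h1⟩

end Pool.Agent.TY
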